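import Mathlib

/-!
# Relatively free nilpotent algebras of finite rank: algebraic part

Algebras are not assumed to be associative.
-/

set_option autoImplicit false
set_option linter.unusedSectionVars false

namespace Pool.Agent.Y624.RF

universe u v w

/-- The `K`-span of all products of an element of `P` and an element of `Q`. -/
def prodSpan (K : Type u) [Field K] (A : Type v) [NonUnitalNonAssocRing A] [Module K A]
    (P Q : Submodule K A) : Submodule K A :=
  Submodule.span K {z | ∃ a ∈ P, ∃ b ∈ Q, z = a * b}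

/-- The powers of an algebra which need not be associative: `A^1 = A` and `A^{k+2}` is the sum of
all `A^i A^j` with `i, j ≥ 1` and `i + j = k + 2`. The value at `0` is irrelevant. -/
def pw (K : Type u) [Field K] (A : Type v) [NonUnitalNonAssocRing A] [Module K A] :
    ℕ → Submodule K A
  | 0 => ⊤
  | 1 => ⊤
  | (k + 2) => ⨆ i : Fin (k + 1),
      prodSpan K A (pw K A (i.val + 1)) (pw K A (k + 1 - i.val))
  termination_by k => k
  decreasing_by
    · have := i.isLt; omega
    · omega

/-- The algebra is nilpotent: for some `n ≥ 1` all products of `n` factors, with any bracketing,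
vanish. -/
def Nilp (K : Type u) [Field K] (A : Type v) [NonUnitalNonAssocRing A] [Module K A] : Prop :=
  ∃ n, 1 ≤ n ∧ pw K A n = ⊥

/-- The algebra `A` is relatively free with the free generators `x i`: it is generated by them and
every map from them to `A` extends to an endomorphism of `A`. The number of the generators may be
infinite. -/
def RelFree (K : Type u) [Field K] (A : Type v) [NonUnitalNonAssocRing A] [Module K A]
    {I : Type w} (x : I → A) : Prop :=
  (∀ S : NonUnitalSubalgebra K A, (∀ i, x i ∈ S) → ∀ a, a ∈ S) ∧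
  ∀ y : I → A, ∃ f : A →ₙₐ[K] A, ∀ i, f (x i) = y i

/-! ### Powers -/

section Powers

variable (K : Type u) [Field K] (A : Type v) [NonUnitalNonAssocRing A] [Module K A]

theorem pw_one : pw K A 1 = ⊤ := by rw [pw]

theorem pw_add_two (k : ℕ) : pw K A (k + 2) = ⨆ i : Fin (k + 1),
      prodSpan K A (pw K A (i.val + 1)) (pw K A (k + 1 - i.val)) := by
  rw [pw]

variable {K A}

theorem mem_pw_one (a : A) : a ∈ pw K A 1 := by
  rw [pw_one]; trivial

theorem mul_mem_prodSpan {P Q : Submodule K A} {a b : A} (ha : a ∈ P) (hb : b ∈ Q) :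
    a * b ∈ prodSpan K A P Q :=
  Submodule.subset_span ⟨a, ha, b, hb, rfl⟩

theorem prodSpan_le {P Q R : Submodule K A} (h : ∀ a ∈ P, ∀ b ∈ Q, a * b ∈ R) :
    prodSpan K A P Q ≤ R := by
  refine Submodule.span_le.2 ?_
  rintro z ⟨a, ha, b, hb, rfl⟩
  exact h a ha b hb

theorem mul_mem_pw {i j : ℕ} (hi : 1 ≤ i) (hj : 1 ≤ j) {a b : A}
    (ha : a ∈ pw K A i) (hb : b ∈ pw K A j) : a * b ∈ pw K A (i + j) := by
  obtain ⟨k, hk⟩ : ∃ k, i + j = k + 2 := ⟨i + j - 2, by omega⟩
  rw [hk, pw_add_two]
  have hi' : i - 1 < k + 1 := by omega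
  refine Submodule.mem_iSup_of_mem (⟨i - 1, hi'⟩ : Fin (k + 1)) ?_
  have e1 : (⟨i - 1, hi'⟩ : Fin (k + 1)).val + 1 = i := by simp; omega
  have e2 : k + 1 - (⟨i - 1, hi'⟩ : Fin (k + 1)).val = j := by simp; omega
  rw [e1, e2]
  exact mul_mem_prodSpan ha hb

theorem pw_le_of {k : ℕ} {R : Submodule K A}
    (h : ∀ i j : ℕ, 1 ≤ i → 1 ≤ j → i + j = k + 2 → ∀ a ∈ pw K A i, ∀ b ∈ pw K A j,
      a * b ∈ R) : pw K A (k + 2) ≤ R := by
  rw [pw_add_two]
  refine iSup_le fun i => prodSpan_le fun a ha b hb => ?_
  have := i.isLt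
  exact h (i.val + 1) (k + 1 - i.val) (by omega) (by omega) (by omega) a ha b hb

theorem pw_succ_le : ∀ k : ℕ, 1 ≤ k → pw K A (k + 1) ≤ pw K A k := by
  intro k
  induction k using Nat.strong_induction_on with
  | _ k ih =>
    intro hk
    obtain rfl | hk2 : k = 1 ∨ 2 ≤ k := by omega
    · rw [pw_one]; exact le_top
    · obtain ⟨l, rfl⟩ : ∃ l, k = l + 1 := ⟨k - 1, by omega⟩
      refine pw_le_of ?_
      intro i j hi hj hij a ha b hb
      by_cases h1 : 2 ≤ i
      · have ha' : a ∈ pw K A (i - 1) := by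
          have := ih (i - 1) (by omega) (by omega)
          rw [show i - 1 + 1 = i by omega] at this
          exact this ha
        have := mul_mem_pw (by omega : 1 ≤ i - 1) hj ha' hb
        rwa [show i - 1 + j = l + 1 by omega] at this
      · have h2 : 2 ≤ j := by omega
        have hb' : b ∈ pw K A (j - 1) := by
          have := ih (j - 1) (by omega) (by omega)
          rw [show j - 1 + 1 = j by omega] at this
          exact this hb
        have := mul_mem_pw hi (by omega : 1 ≤ j - 1) ha hb'
        rwa [show i + (j - 1) = l + 1 by omega] at this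

end Powers

/-! ### Squares -/

section Squares

variable {K : Type u} [Field K] {F : Type v} [NonUnitalNonAssocRing F] [Module K F]
  [IsScalarTower K F F] [SMulCommClass K F F]

omit [IsScalarTower K F F] [SMulCommClass K F F] in
theorem mul_mem_sq (a b : F) : a * b ∈ pw K F 2 :=
  mul_mem_pw (i := 1) (j := 1) le_rfl le_rfl (mem_pw_one a) (mem_pw_one b)

omit [IsScalarTower K F F] [SMulCommClass K F F] in
theorem sq_le {R : Submodule K F} (h : ∀ a b : F, a * b ∈ R) : pw K F 2 ≤ R :=
  pw_le_of (k := 0) fun _ _ _ _ _ a _ b _ => h a b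

/-- endomorphisms preserve the square -/
theorem map_mem_sq (f : F →ₙₐ[K] F) {z : F} (hz : z ∈ pw K F 2) : f z ∈ pw K F 2 := by
  have h : pw K F 2 ≤ (pw K F 2).comap (f : F →ₗ[K] F) := by
    apply sq_le
    intro a b
    rw [Submodule.mem_comap]
    have h1 : (f : F →ₗ[K] F) (a * b) = f a * f b := map_mul f a b
    rw [h1]
    exact mul_mem_sq _ _
  exact h hz

/-- If the elements of `S` together with the products span, then `S` is everything. -/
theorem top_of_sup_sq {n : ℕ} (hF : pw K F n = ⊥) (hn : 1 ≤ n) (S : NonUnitalSubalgebra K F)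
    (h : ∀ z : F, ∃ s ∈ S, z - s ∈ pw K F 2) : ∀ z : F, z ∈ S := by
  have key : ∀ k : ℕ, 1 ≤ k → ∀ z ∈ pw K F k, ∃ s ∈ S, z - s ∈ pw K F (k + 1) := by
    intro k
    induction k using Nat.strong_induction_on with
    | _ k ih =>
      intro hk
      obtain rfl | hk2 : k = 1 ∨ 2 ≤ k := by omega
      · intro z _
        exact h z
      · obtain ⟨l, rfl⟩ : ∃ l, k = l + 2 := ⟨k - 2, by omega⟩
        have e : pw K F (l + 2) ≤ S.toSubmodule ⊔ pw K F (l + 2 + 1) := by
          refine pw_le_of ?_
          intro i j hi hj hij a ha b hb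
          obtain ⟨s, hs, ht⟩ := ih i (by omega) hi a ha
          obtain ⟨s', hs', ht'⟩ := ih j (by omega) hj b hb
          have hsi : s ∈ pw K F i := by
            have h1 := Submodule.sub_mem _ ha (pw_succ_le i hi ht)
            rwa [sub_sub_cancel] at h1
          have h1 : s * s' ∈ S.toSubmodule := S.mul_mem hs hs'
          have h3 : s * (b - s') ∈ pw K F (l + 2 + 1) := by
            have := mul_mem_pw hi (by omega : 1 ≤ j + 1) hsi ht'
            rwa [show i + (j + 1) = l + 2 + 1 by omega] at this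
          have h4 : (a - s) * b ∈ pw K F (l + 2 + 1) := by
            have := mul_mem_pw (by omega : 1 ≤ i + 1) hj ht hb
            rwa [show i + 1 + j = l + 2 + 1 by omega] at this
          have h5 : a * b = s * s' + (s * (b - s') + (a - s) * b) := by
            rw [mul_sub, sub_mul]; abel
          rw [h5]
          exact Submodule.add_mem _ (Submodule.mem_sup_left h1)
            (Submodule.mem_sup_right (Submodule.add_mem _ h3 h4))
        intro z hz
        obtain ⟨s, hs, t, ht, hst⟩ := Submodule.mem_sup.1 (e hz)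
        refine ⟨s, hs, ?_⟩
        rw [← hst, add_sub_cancel_left]
        exact ht
  have key2 : ∀ k : ℕ, 1 ≤ k → ∀ z : F, ∃ s ∈ S, z - s ∈ pw K F k := by
    intro k hk
    induction k, hk using Nat.le_induction with
    | base => intro z; exact ⟨0, S.zero_mem, mem_pw_one _⟩
    | succ k hk ih =>
      intro z
      obtain ⟨s, hs, ht⟩ := ih z
      obtain ⟨s', hs', ht'⟩ := key k hk _ ht
      refine ⟨s + s', S.add_mem hs hs', ?_⟩
      rwa [← sub_sub]
  intro z
  obtain ⟨s, hs, ht⟩ := key2 n hn z
  rw [hF, Submodule.mem_bot] at ht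
  rw [sub_eq_zero.1 ht]
  exact hs

variable {I : Type w} {x : I → F}

omit [IsScalarTower K F F] [SMulCommClass K F F] in
/-- induction over an algebra which is generated by the `x i` -/
theorem gen_induction (hx : RelFree K F x) (P : F → Prop) (h0 : P 0) (h1 : ∀ i, P (x i))
    (h2 : ∀ a b, P a → P b → P (a + b)) (h3 : ∀ (c : K) a, P a → P (c • a))
    (h4 : ∀ a b, P a → P b → P (a * b)) (z : F) : P z := by
  let S : NonUnitalSubalgebra K F :=
    { carrier := {z | P z}
      add_mem' := fun {a b} ha hb => h2 a b ha hb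
      zero_mem' := h0
      mul_mem' := fun {a b} ha hb => h4 a b ha hb
      smul_mem' := fun c a ha => h3 c a ha }
  exact hx.1 S h1 z

/-- the class modulo the square -/
def cl (K : Type u) [Field K] {F : Type v} [NonUnitalNonAssocRing F] [Module K F] :
    F →ₗ[K] (F ⧸ pw K F 2) := (pw K F 2).mkQ

theorem cl_eq_zero {z : F} : cl K z = 0 ↔ z ∈ pw K F 2 := Submodule.Quotient.mk_eq_zero _

theorem cl_surj : Function.Surjective (cl K : F →ₗ[K] (F ⧸ pw K F 2)) :=
  Submodule.mkQ_surjective _

/-- An endomorphism which is bijective modulo the square is bijective. -/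
theorem bijective_of_lin (hx : RelFree K F x) {n : ℕ} (hF : pw K F n = ⊥) (hn : 1 ≤ n)
    (σ : F →ₙₐ[K] F) (E : (F ⧸ pw K F 2) ≃ₗ[K] (F ⧸ pw K F 2))
    (h : ∀ z, cl K (σ z) = E (cl K z)) : Function.Bijective σ := by
  have hsur : ∀ (ρ : F →ₙₐ[K] F) (E : (F ⧸ pw K F 2) ≃ₗ[K] (F ⧸ pw K F 2)),
      (∀ z, cl K (ρ z) = E (cl K z)) → Function.Surjective ρ := by
    intro ρ E h
    have hall := top_of_sup_sq hF hn (NonUnitalAlgHom.range ρ) (by
      intro z
      obtain ⟨z', hz'⟩ := cl_surj (E.symm (cl K z))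
      refine ⟨ρ z', ⟨z', rfl⟩, ?_⟩
      rw [← cl_eq_zero, map_sub, h, hz', E.apply_symm_apply, sub_self])
    intro z
    exact hall z
  have hs := hsur σ E h
  choose w hw using fun i => hs (x i)
  obtain ⟨ψ, hψ⟩ := hx.2 w
  have hid : ∀ z, σ (ψ z) = z := by
    refine gen_induction hx _ (by rw [map_zero, map_zero]) (fun i => by rw [hψ, hw]) ?_ ?_ ?_
    · intro a b ha hb
      rw [map_add, map_add, ha, hb]
    · intro c a ha
      rw [map_smul, map_smul, ha]
    · intro a b ha hb
      rw [map_mul, map_mul, ha, hb]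
  have hψs : Function.Surjective ψ := by
    apply hsur ψ E.symm
    intro z
    rw [LinearEquiv.eq_symm_apply, ← h, hid]
  refine ⟨?_, hs⟩
  intro a b hab
  obtain ⟨a', rfl⟩ := hψs a
  obtain ⟨b', rfl⟩ := hψs b
  rw [hid, hid] at hab
  rw [hab]

end Squares

/-! ### Linear algebra -/

section Linear

variable {K : Type u} [Field K] {V : Type v} [AddCommGroup V] [Module K V]

/-- Finite families with the same linear relations are conjugate under a linear automorphism. -/
theorem lin_ext {B : Type w} [Fintype B] (p q : B → V)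
    (h : ∀ c : B → K, Fintype.linearCombination K p c = 0 ↔ Fintype.linearCombination K q c = 0) :
    ∃ E : V ≃ₗ[K] V, ∀ i, E (p i) = q i := by
  classical
  set f : (B → K) →ₗ[K] V := Fintype.linearCombination K p with hf
  set g : (B → K) →ₗ[K] V := Fintype.linearCombination K q with hg
  have hker : LinearMap.ker f = LinearMap.ker g := by
    ext c
    rw [LinearMap.mem_ker, LinearMap.mem_ker]
    exact h c
  let e : LinearMap.range f ≃ₗ[K] LinearMap.range g :=
    f.quotKerEquivRange.symm ≪≫ₗ Submodule.quotEquivOfEq _ _ hker ≪≫ₗ g.quotKerEquivRange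
  have he : ∀ c : B → K, (e ⟨f c, c, rfl⟩ : V) = g c := by
    intro c
    have h1 : f.quotKerEquivRange.symm ⟨f c, c, rfl⟩ = Submodule.Quotient.mk c := by
      rw [LinearEquiv.symm_apply_eq]
      rfl
    simp only [e, LinearEquiv.trans_apply, h1]
    rfl
  obtain ⟨P, hP⟩ := Submodule.exists_isCompl (LinearMap.range f)
  obtain ⟨Q, hQ⟩ := Submodule.exists_isCompl (LinearMap.range g)
  have hrk : Module.rank K P = Module.rank K Q := by
    have h1 : Module.rank K P = Module.rank K (V ⧸ LinearMap.range f) :=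
      ((Submodule.quotientEquivOfIsCompl _ _ hP).rank_eq).symm
    have h2 : Module.rank K Q = Module.rank K (V ⧸ LinearMap.range g) :=
      ((Submodule.quotientEquivOfIsCompl _ _ hQ).rank_eq).symm
    have h3 := Submodule.rank_quotient_add_rank (LinearMap.range f)
    have h4 := Submodule.rank_quotient_add_rank (LinearMap.range g)
    have h5 : Module.rank K (LinearMap.range f) = Module.rank K (LinearMap.range g) := e.rank_eq
    rw [h1, h2]
    rw [← h4, ← h5] at h3
    exact Cardinal.eq_of_add_eq_add_right h3 (Module.rank_lt_aleph0 K (LinearMap.range f))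
  obtain ⟨e'⟩ := nonempty_linearEquiv_of_rank_eq hrk
  let E : V ≃ₗ[K] V := (Submodule.prodEquivOfIsCompl _ _ hP).symm ≪≫ₗ
    (e.prodCongr e') ≪≫ₗ Submodule.prodEquivOfIsCompl _ _ hQ
  have hE : ∀ c : B → K, E (f c) = g c := by
    intro c
    have h1 : (Submodule.prodEquivOfIsCompl _ _ hP).symm (f c) = (⟨f c, c, rfl⟩, 0) := by
      rw [LinearEquiv.symm_apply_eq]
      simp
    simp only [E, LinearEquiv.trans_apply, h1]
    rw [LinearEquiv.prodCongr_apply]
    simp [he]
  refine ⟨E, fun i => ?_⟩
  have h1 := hE (Pi.single i 1)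
  have h2 : f (Pi.single i 1) = p i := by
    simp [hf, Fintype.linearCombination_apply, Pi.single_apply]
  have h3 : g (Pi.single i 1) = q i := by
    simp [hg, Fintype.linearCombination_apply, Pi.single_apply]
  rw [h2, h3] at h1
  exact h1

end Linear

/-! ### Independent families -/

section Indep

variable {K : Type u} [Field K] {F : Type v} [NonUnitalNonAssocRing F] [Module K F]
  [IsScalarTower K F F] [SMulCommClass K F F] {I : Type w} {x : I → F}

/-- the free generators are not in the square -/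
theorem gen_not_mem_sq (hx : RelFree K F x) {n : ℕ} (hF : pw K F n = ⊥) (hn : 1 ≤ n)
    (hne : ∃ a b : F, a * b ≠ 0) (i : I) : x i ∉ pw K F 2 := by
  intro hi
  have h1 : ∀ k, x k ∈ pw K F 2 := by
    intro k
    obtain ⟨f, hf⟩ := hx.2 (fun _ => x k)
    rw [← hf i]
    exact map_mem_sq f hi
  have h3 : ∀ z, z ∈ pw K F 2 := gen_induction hx _ (zero_mem _) h1
    (fun a b ha hb => add_mem ha hb) (fun c a ha => Submodule.smul_mem _ c ha)
    (fun a b _ _ => mul_mem_sq a b)
  have h2 := top_of_sup_sq hF hn ⊥ (by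
    intro z
    refine ⟨0, zero_mem _, ?_⟩
    rw [sub_zero]
    exact h3 z)
  obtain ⟨a, b, hab⟩ := hne
  exact hab (NonUnitalAlgebra.mem_bot.1 (h2 (a * b)))

/-- the free generators are independent modulo the square -/
theorem gen_indep (hx : RelFree K F x) {n : ℕ} (hF : pw K F n = ⊥) (hn : 1 ≤ n)
    (hne : ∃ a b : F, a * b ≠ 0) : LinearIndependent K (fun i => cl K (x i)) := by
  classical
  rw [linearIndependent_iff]
  intro l hl
  by_contra hcon
  obtain ⟨i, hi⟩ := Finsupp.ne_iff.1 hcon
  rw [Finsupp.zero_apply] at hi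
  have h1 : Finsupp.linearCombination K x l ∈ pw K F 2 := by
    rw [← cl_eq_zero, Finsupp.apply_linearCombination]
    exact hl
  obtain ⟨f, hf⟩ := hx.2 (fun k => if k = i then x i else 0)
  have h2 := map_mem_sq f h1
  have h3 : f (Finsupp.linearCombination K x l) = l i • x i := by
    have h4 : f (Finsupp.linearCombination K x l) =
        (f : F →ₗ[K] F) (Finsupp.linearCombination K x l) := rfl
    rw [h4, Finsupp.apply_linearCombination, Finsupp.linearCombination_apply, Finsupp.sum]
    have h5 : ∀ k, ((f : F →ₗ[K] F) ∘ x) k = if k = i then x i else 0 := fun k => hf k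
    simp only [h5, smul_ite, smul_zero]
    rw [Finset.sum_ite_eq']
    rw [if_pos (Finsupp.mem_support_iff.2 hi)]
  rw [h3] at h2
  apply gen_not_mem_sq hx hF hn hne i
  have h6 := Submodule.smul_mem _ (l i)⁻¹ h2
  rwa [smul_smul, inv_mul_cancel₀ hi, one_smul] at h6

/-- Every family which is independent modulo the square is the image of a family of free
generators under an automorphism. -/
theorem exists_auto (hx : RelFree K F x) {n : ℕ} (hF : pw K F n = ⊥) (hn : 1 ≤ n)
    (hne : ∃ a b : F, a * b ≠ 0) {B : Type w} [Fintype B] (idx : B → I)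
    (hidx : Function.Injective idx) (y : B → F)
    (hy : LinearIndependent K (fun j => cl K (y j))) :
    ∃ σ : F →ₙₐ[K] F, Function.Bijective σ ∧ ∀ j, σ (x (idx j)) = y j := by
  classical
  have hxi : LinearIndependent K (fun j => cl K (x (idx j))) :=
    (gen_indep hx hF hn hne).comp idx hidx
  obtain ⟨E, hE⟩ := lin_ext (K := K) (fun j => cl K (x (idx j))) (fun j => cl K (y j)) (by
    intro c
    rw [Fintype.linearCombination_apply, Fintype.linearCombination_apply]
    constructor
    · intro h
      have h1 := Fintype.linearIndependent_iff.1 hxi c h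
      simp [h1]
    · intro h
      have h1 := Fintype.linearIndependent_iff.1 hy c h
      simp [h1])
  have hy' : ∀ i : I, ∃ z : F, cl K z = E (cl K (x i)) ∧ ∀ j, idx j = i → z = y j := by
    intro i
    by_cases h : ∃ j, idx j = i
    · obtain ⟨j, rfl⟩ := h
      refine ⟨y j, (hE j).symm, fun j' hj' => ?_⟩
      rw [hidx hj']
    · obtain ⟨z, hz⟩ := cl_surj (E (cl K (x i)))
      exact ⟨z, hz, fun j hj => absurd ⟨j, hj⟩ h⟩
  choose y' hy1 hy2 using hy'
  obtain ⟨σ, hσ⟩ := hx.2 y'
  refine ⟨σ, ?_, fun j => by rw [hσ, hy2 (idx j) j rfl]⟩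
  apply bijective_of_lin hx hF hn σ E
  refine gen_induction hx _ (by simp) (fun i => by rw [hσ, hy1]) ?_ ?_ ?_
  · intro a b ha hb
    rw [map_add, map_add, map_add, map_add, ha, hb]
  · intro c a ha
    rw [map_smul, map_smul, map_smul, map_smul, ha]
  · intro a b _ _
    have h1 : cl K (σ (a * b)) = 0 := by
      rw [map_mul, cl_eq_zero]
      exact mul_mem_sq _ _
    have h2 : cl K (a * b) = 0 := cl_eq_zero.2 (mul_mem_sq _ _)
    rw [h1, h2, map_zero]

/-- Elements which satisfy a relation violated by pairs of free generators are proportional modulo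
the square. -/
theorem proportional (hx : RelFree K F x) {n : ℕ} (hF : pw K F n = ⊥)
    (hn : 1 ≤ n) (hne : ∃ a b : F, a * b ≠ 0) (E : F → F → Prop)
    (hE : ∀ σ : F →ₙₐ[K] F, Function.Bijective σ → ∀ u y, E (σ u) (σ y) → E u y)
    (hE2 : ∀ i j : I, i ≠ j → ¬ E (x i) (x j)) {u y : F} (hy : y ∉ pw K F 2) (h : E u y) :
    ∃ c : K, u - c • y ∈ pw K F 2 := by
  classical
  by_contra hcon
  push Not at hcon
  have hind : LinearIndependent K ![cl K u, cl K y] := by
    rw [LinearIndependent.pair_iff]
    intro s t hst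
    have hs : s = 0 := by
      by_contra hs
      apply hcon (-(t / s))
      rw [← cl_eq_zero, map_sub, map_smul, neg_smul, sub_neg_eq_add]
      have h1 : s • (cl K u + (t / s) • cl K y) = 0 := by
        rw [smul_add, smul_smul, mul_div_cancel₀ _ hs]
        exact hst
      exact (smul_eq_zero.1 h1).resolve_left hs
    refine ⟨hs, ?_⟩
    rw [hs, zero_smul, zero_add] at hst
    exact (smul_eq_zero.1 hst).resolve_right (fun h => hy (cl_eq_zero.1 h))
  -- there are two generators
  obtain ⟨i₀⟩ : Nonempty I := by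
    by_contra hI
    rw [not_nonempty_iff] at hI
    apply hy
    exact gen_induction hx (fun z => z ∈ pw K F 2) (zero_mem _) (fun i => (hI.false i).elim)
      (fun a b ha hb => add_mem ha hb) (fun c a ha => Submodule.smul_mem _ c ha)
      (fun a b _ _ => mul_mem_sq a b) y
  obtain ⟨j₀, hj₀⟩ : ∃ j, j ≠ i₀ := by
    by_contra hj
    push Not at hj
    have h1 : ∀ z : F, ∃ c : K, cl K z = c • cl K (x i₀) := by
      refine gen_induction hx _ ⟨0, by simp⟩ (fun i => ⟨1, by rw [hj i, one_smul]⟩) ?_ ?_ ?_
      · rintro a b ⟨c, hc⟩ ⟨d, hd⟩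
        exact ⟨c + d, by rw [map_add, hc, hd, add_smul]⟩
      · rintro t a ⟨c, hc⟩
        exact ⟨t * c, by rw [map_smul, hc, smul_smul]⟩
      · rintro a b _ _
        exact ⟨0, by rw [zero_smul]; exact cl_eq_zero.2 (mul_mem_sq a b)⟩
    obtain ⟨c, hc⟩ := h1 u
    obtain ⟨d, hd⟩ := h1 y
    have hd0 : d ≠ 0 := by
      rintro rfl
      apply hy
      rw [← cl_eq_zero, hd, zero_smul]
    apply hcon (c / d)
    rw [← cl_eq_zero, map_sub, map_smul, hc, hd, smul_smul, div_mul_cancel₀ _ hd0, sub_self]
  let idx : ULift.{w} (Fin 2) → I := fun k => ![i₀, j₀] k.down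
  have hidx : Function.Injective idx := by
    rintro ⟨k⟩ ⟨l⟩ hkl
    congr 1
    fin_cases k <;> fin_cases l
    · rfl
    · exact absurd hkl.symm hj₀
    · exact absurd hkl hj₀
    · rfl
  obtain ⟨σ, hσ, hσ'⟩ := exists_auto hx hF hn hne idx hidx (fun k => ![u, y] k.down) (by
    have h1 : (fun k : ULift.{w} (Fin 2) => cl K (![u, y] k.down)) =
        (![cl K u, cl K y] : Fin 2 → _) ∘ ULift.down := by
      funext k
      obtain ⟨k⟩ := k
      fin_cases k <;> rfl
    rw [h1]
    exact hind.comp _ ULift.down_injective)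
  have h1 : σ (x i₀) = u := hσ' ⟨0⟩
  have h2 : σ (x j₀) = y := hσ' ⟨1⟩
  rw [← h1, ← h2] at h
  exact hE2 i₀ j₀ hj₀.symm (hE σ hσ _ _ h)

end Indep

end Pool.Agent.Y624.RF
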