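import Pool.Agent.Y624.RF.Logic
import Pool.Agent.Helper771.LieHomogNilp

/-!
# Relatively free nilpotent Lie algebras
-/

set_option autoImplicit false
set_option linter.unusedSectionVars false

namespace Pool.Agent.Y624.RF

open FirstOrder
open Pool.Agent.Helper771.FreeNilp (AlgFn algLang)
open Pool.Agent.Helper771.LieHomog (LieFn lieLang gam SameType lie_mem_gam gam_succ_le mem_gam_zero)

universe u v w

/-- The Lie algebra `L` is relatively free with the free generators `x i`: it is generated by
them and every map from them to `L` extends to an endomorphism of `L`. The number of the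
generators may be infinite. -/
def RelFreeLie (K : Type u) [Field K] (L : Type v) [LieRing L] [LieAlgebra K L]
    {I : Type w} (x : I → L) : Prop :=
  (∀ S : LieSubalgebra K L, (∀ i, x i ∈ S) → ∀ a, a ∈ S) ∧
  ∀ y : I → L, ∃ f : L →ₗ⁅K⁆ L, ∀ i, f (x i) = y i

section

variable {K : Type u} [Field K] {L : Type v} [LieRing L] [LieAlgebra K L]

/-- `[γ_i, γ_j] ⊆ γ_{i+j}` -/
theorem lie_gam (i : ℕ) : ∀ (j : ℕ) (a b : L), a ∈ gam K L i → b ∈ gam K L j →
    ⁅a, b⁆ ∈ gam K L (i + j + 1) := by
  induction i with
  | zero =>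
    intro j a b _ hb
    rw [zero_add]
    exact lie_mem_gam a hb
  | succ i ih =>
    intro j a b ha hb
    let P : Submodule K L := (gam K L (i + 1 + j + 1)).toSubmodule.comap
      ((LieModule.toEnd K L L : L →ₗ[K] Module.End K L).flip b)
    have h1 : a ∈ P := by
      refine gam_succ_le (P := P) ?_ a ha
      intro c d hd
      change ⁅⁅c, d⁆, b⁆ ∈ gam K L (i + 1 + j + 1)
      rw [lie_lie]
      refine sub_mem ?_ ?_
      · have h2 := lie_mem_gam c (ih j d b hd hb)
        rwa [show i + j + 1 + 1 = i + 1 + j + 1 by omega] at h2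
      · have h2 := ih (j + 1) d ⁅c, b⁆ hd (lie_mem_gam c hb)
        rwa [show i + (j + 1) + 1 = i + 1 + j + 1 by omega] at h2
    exact h1

theorem pw_le_gam (k : ℕ) : ∀ z : CommutatorRing L, z ∈ pw K (CommutatorRing L) (k + 1) →
    (show L from z) ∈ gam K L k := by
  induction k using Nat.strong_induction_on with
  | _ k ih =>
    intro z hz
    obtain rfl | ⟨l, rfl⟩ : k = 0 ∨ ∃ l, k = l + 1 := by
      rcases Nat.eq_zero_or_pos k with h | h
      · exact Or.inl h
      · exact Or.inr ⟨k - 1, by omega⟩
    · exact mem_gam_zero (K := K) (A := L) z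
    · let R : Submodule K (CommutatorRing L) := (gam K L (l + 1)).toSubmodule
      have h1 : pw K (CommutatorRing L) (l + 2) ≤ R := by
        apply pw_le_of
        intro i j hi hj hij a ha b hb
        obtain ⟨i', rfl⟩ : ∃ i', i = i' + 1 := ⟨i - 1, by omega⟩
        obtain ⟨j', rfl⟩ : ∃ j', j = j' + 1 := ⟨j - 1, by omega⟩
        have h2 := ih i' (by omega) a ha
        have h3 := ih j' (by omega) b hb
        have h4 := lie_gam (K := K) i' j' (show L from a) (show L from b) h2 h3
        rw [show i' + j' + 1 = l + 1 by omega] at h4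
        exact h4
      exact h1 hz

theorem nilp_of_lie (hN : ∃ n, LieModule.lowerCentralSeries K L L n = ⊥) :
    Nilp K (CommutatorRing L) := by
  obtain ⟨n, hn⟩ := hN
  refine ⟨n + 1, by omega, ?_⟩
  rw [eq_bot_iff]
  intro z hz
  have h1 := pw_le_gam (K := K) (L := L) n z hz
  unfold gam at h1
  rw [hn] at h1
  exact h1

theorem relFree_of_lie {I : Type w} {x : I → L} (hx : RelFreeLie K L x) :
    RelFree K (CommutatorRing L) (fun i => (show CommutatorRing L from x i)) := by
  refine ⟨fun S hS a => ?_, fun y => ?_⟩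
  · let T : LieSubalgebra K L :=
      { carrier := {z | (show CommutatorRing L from z) ∈ S}
        add_mem' := fun {a b} ha hb => S.add_mem ha hb
        zero_mem' := S.zero_mem
        smul_mem' := fun c a ha => S.smul_mem c ha
        lie_mem' := fun {a b} ha hb => S.mul_mem ha hb }
    exact hx.1 T hS a
  · obtain ⟨f, hf⟩ := hx.2 y
    exact ⟨f.toNonUnitalAlgHom, hf⟩

variable (K) in
/-- translation of the language of algebras to the language of Lie algebras -/
def trans : algLang K →ᴸ lieLang K where
  onFunction := fun {_} f => match f with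
    | AlgFn.zero => LieFn.zero
    | AlgFn.add => LieFn.add
    | AlgFn.neg => LieFn.neg
    | AlgFn.mul => LieFn.bracket
    | AlgFn.smul c => LieFn.smul c
  onRelation := fun {_} r => r.elim

/-- the structure on the algebra -/
@[reducible] def lieStr (K : Type u) [Field K] (L : Type v) [LieRing L] [LieAlgebra K L] :
    (algLang K).Structure L := (trans K).reduct L

theorem compat_lie : @Compat K _ (CommutatorRing L) _ _ (lieStr K L) :=
  @Compat.mk K _ (CommutatorRing L) _ _ (lieStr K L) (fun _ => rfl) (fun _ => rfl) (fun _ => rfl)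
    (fun _ => rfl) (fun _ _ => rfl)

theorem realize_trans {m : ℕ} (φ : (algLang K).Formula (Fin m)) (μ : Fin m → L) :
    ((trans K).onFormula φ).Realize μ ↔
      @Language.Formula.Realize (algLang K) L (lieStr K L) (Fin m) φ μ := by
  let _ : (algLang K).Structure L := lieStr K L
  have : (trans K).IsExpansionOn L := Language.LHom.isExpansionOn_reduct (trans K) L
  exact Language.LHom.realize_onFormula (trans K) φ

/-- automorphisms in the two senses -/
theorem conj_iff {m : ℕ} (μ ν : Fin m → L) :
    (∃ σ : CommutatorRing L →ₙₐ[K] CommutatorRing L, Function.Bijective σ ∧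
      ∀ i, σ (μ i) = ν i) ↔ ∃ σ : L ≃ₗ⁅K⁆ L, ∀ i, σ (μ i) = ν i := by
  constructor
  · rintro ⟨σ, hσ, h⟩
    let f : L →ₗ⁅K⁆ L :=
      { toFun := fun a => σ a
        map_add' := fun a b => map_add σ a b
        map_smul' := fun c a => map_smul σ c a
        map_lie' := fun {a b} => σ.map_mul' a b }
    exact ⟨LieEquiv.ofBijective f hσ, h⟩
  · rintro ⟨σ, h⟩
    exact ⟨(σ : L →ₗ⁅K⁆ L).toNonUnitalAlgHom, σ.bijective, h⟩

/-- Tuples of the same type in a relatively free nilpotent Lie algebra are conjugate under an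
automorphism. -/
theorem lie_homogeneous {I : Type w} {x : I → L} (hx : RelFreeLie K L x)
    (hN : ∃ n, LieModule.lowerCentralSeries K L L n = ⊥) (m : ℕ) (μ ν : Fin m → L)
    (h : SameType K L μ ν) : ∃ σ : L ≃ₗ⁅K⁆ L, ∀ i, σ (μ i) = ν i := by
  rw [← conj_iff]
  let _ : (algLang K).Structure (CommutatorRing L) := lieStr K L
  refine homogeneous (K := K) (F := CommutatorRing L) compat_lie (relFree_of_lie hx)
    (nilp_of_lie hN) m μ ν ?_
  intro φ
  have h1 := h ((trans K).onFormula φ)
  rw [realize_trans, realize_trans] at h1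
  exact h1

/-- Every orbit of tuples in a relatively free nilpotent Lie algebra which is not abelian is
defined by one formula. -/
theorem lie_orbit {I : Type w} {x : I → L} (hx : RelFreeLie K L x)
    (hN : ∃ n, LieModule.lowerCentralSeries K L L n = ⊥) (hne : ∃ a b : L, ⁅a, b⁆ ≠ 0) (m : ℕ)
    (μ : Fin m → L) : ∃ φ : (lieLang K).Formula (Fin m), ∀ ν : Fin m → L,
      φ.Realize ν ↔ ∃ σ : L ≃ₗ⁅K⁆ L, ∀ i, σ (μ i) = ν i := by
  let _ : (algLang K).Structure (CommutatorRing L) := lieStr K L
  obtain ⟨φ, hφ⟩ := orbit_definable (K := K) (F := CommutatorRing L) compat_lie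
    (relFree_of_lie hx) (nilp_of_lie hN) hne m μ
  refine ⟨(trans K).onFormula φ, fun ν => ?_⟩
  rw [realize_trans, ← conj_iff]
  exact hφ ν

end

end Pool.Agent.Y624.RF
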