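import Pool.Agent.Y624.RF.Lie

/-!
# Quotients of free Lie algebras by fully invariant ideals
-/

set_option autoImplicit false
set_option linter.unusedSectionVars false

namespace Pool.Agent.Y624.RF

open Pool.Agent.Helper771.LieHomog (gam lie_mem_gam gam_succ_le mem_gam_zero)

universe u v w

section

variable {K : Type u} [Field K] {I : Type w} (J : LieIdeal K (FreeLieAlgebra K I))

/-- the quotient map as a homomorphism of Lie algebras -/
noncomputable def qJ : FreeLieAlgebra K I →ₗ⁅K⁆ FreeLieAlgebra K I ⧸ J where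
  toFun a := LieSubmodule.Quotient.mk a
  map_add' _ _ := rfl
  map_smul' _ _ := rfl
  map_lie' := rfl

theorem qJ_surj : Function.Surjective (qJ J) := fun z => Quot.exists_rep z

theorem qJ_eq_zero {a : FreeLieAlgebra K I} : qJ J a = 0 ↔ a ∈ J :=
  Submodule.Quotient.mk_eq_zero _

/-- the free Lie algebra is generated by the free generators -/
theorem free_gen (S : LieSubalgebra K (FreeLieAlgebra K I))
    (hx : ∀ i, FreeLieAlgebra.of K i ∈ S) (z : FreeLieAlgebra K I) : z ∈ S := by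
  let f : FreeLieAlgebra K I →ₗ⁅K⁆ S := FreeLieAlgebra.lift K (fun i => ⟨_, hx i⟩)
  have h1 : S.incl.comp f = LieHom.id := by
    apply FreeLieAlgebra.hom_ext
    intro i
    simp [f]
  have h2 : S.incl (f z) = z := by
    have := DFunLike.congr_fun h1 z
    simpa using this
  rw [← h2]
  exact (f z).2

/-- The quotient of a free Lie algebra by a fully invariant ideal is relatively free. -/
theorem relFreeLie_quot (hJ : ∀ f : FreeLieAlgebra K I →ₗ⁅K⁆ FreeLieAlgebra K I, ∀ a ∈ J,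
    f a ∈ J) :
    RelFreeLie K (FreeLieAlgebra K I ⧸ J) (fun i => qJ J (FreeLieAlgebra.of K i)) := by
  refine ⟨fun S hS z => ?_, fun y => ?_⟩
  · obtain ⟨a, rfl⟩ := qJ_surj J z
    exact free_gen (S.comap (qJ J)) hS a
  · choose y' hy' using fun i => qJ_surj J (y i)
    let f : FreeLieAlgebra K I →ₗ⁅K⁆ FreeLieAlgebra K I := FreeLieAlgebra.lift K y'
    let g₀ : (FreeLieAlgebra K I ⧸ J) →ₗ[K] (FreeLieAlgebra K I ⧸ J) :=
      J.toSubmodule.liftQ (((qJ J).comp f : FreeLieAlgebra K I →ₗ⁅K⁆ FreeLieAlgebra K I ⧸ J) :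
        FreeLieAlgebra K I →ₗ[K] (FreeLieAlgebra K I ⧸ J)) (by
          intro a ha
          exact (qJ_eq_zero J).2 (hJ f a ha))
    have hg : ∀ a, g₀ (qJ J a) = qJ J (f a) := fun a => rfl
    refine ⟨{ g₀ with map_lie' := ?_ }, ?_⟩
    · intro a b
      obtain ⟨a, rfl⟩ := qJ_surj J a
      obtain ⟨b, rfl⟩ := qJ_surj J b
      change g₀ ⁅qJ J a, qJ J b⁆ = ⁅g₀ (qJ J a), g₀ (qJ J b)⁆
      rw [← LieHom.map_lie, hg, hg, hg, LieHom.map_lie, LieHom.map_lie]
    · intro i
      change g₀ (qJ J (FreeLieAlgebra.of K i)) = y i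
      rw [hg, ← hy' i]
      simp [f]

/-- nilpotency of the quotient -/
theorem nilp_quot {n : ℕ} (hn : LieModule.lowerCentralSeries K (FreeLieAlgebra K I)
    (FreeLieAlgebra K I) n ≤ J) :
    LieModule.lowerCentralSeries K (FreeLieAlgebra K I ⧸ J) (FreeLieAlgebra K I ⧸ J) n = ⊥ := by
  have key : ∀ k : ℕ, ∀ z ∈ gam K (FreeLieAlgebra K I ⧸ J) k,
      ∃ a ∈ gam K (FreeLieAlgebra K I) k, qJ J a = z := by
    intro k
    induction k with
    | zero =>
      intro z _
      obtain ⟨a, rfl⟩ := qJ_surj J z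
      exact ⟨a, mem_gam_zero a, rfl⟩
    | succ k ih =>
      intro z hz
      have : z ∈ ((gam K (FreeLieAlgebra K I) (k + 1)).toSubmodule.map
          (qJ J : FreeLieAlgebra K I →ₗ[K] (FreeLieAlgebra K I ⧸ J))) := by
        refine gam_succ_le ?_ z hz
        intro a b hb
        obtain ⟨a', rfl⟩ := qJ_surj J a
        obtain ⟨b', hb', rfl⟩ := ih b hb
        exact ⟨⁅a', b'⁆, lie_mem_gam _ hb', LieHom.map_lie _ _ _⟩
      obtain ⟨a, ha, ha'⟩ := this
      exact ⟨a, ha, ha'⟩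
  rw [eq_bot_iff]
  intro z hz
  obtain ⟨a, ha, rfl⟩ := key n z hz
  have h1 : a ∈ J := hn ha
  have h2 := (qJ_eq_zero J).2 h1
  rw [h2]
  exact zero_mem _

end

end Pool.Agent.Y624.RF
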