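import Pool.Agent.Y624.RF.Core
import Pool.Agent.Helper771.FreeNilp

/-!
# Relatively free nilpotent algebras of finite rank: types and orbits
-/

set_option autoImplicit false

namespace Pool.Agent.Y624.RF

open FirstOrder Pool.Agent.Helper771.FreeNilp

universe u v w

set_option linter.unusedSectionVars false

/-- A structure for the language of `K`-algebras on an algebra interprets all function symbols by
the operations of the algebra. -/
structure Compat (K : Type u) [Field K] (A : Type v) [NonUnitalNonAssocRing A] [Module K A]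
    [(algLang K).Structure A] : Prop where
  zero : ∀ xs : Fin 0 → A,
    Language.Structure.funMap (L := algLang K) (AlgFn.zero : AlgFn K 0) xs = 0
  add : ∀ xs : Fin 2 → A,
    Language.Structure.funMap (L := algLang K) (AlgFn.add : AlgFn K 2) xs = xs 0 + xs 1
  neg : ∀ xs : Fin 1 → A,
    Language.Structure.funMap (L := algLang K) (AlgFn.neg : AlgFn K 1) xs = - xs 0
  mul : ∀ xs : Fin 2 → A,
    Language.Structure.funMap (L := algLang K) (AlgFn.mul : AlgFn K 2) xs = xs 0 * xs 1
  smul : ∀ (c : K) (xs : Fin 1 → A),
    Language.Structure.funMap (L := algLang K) (AlgFn.smul c : AlgFn K 1) xs = c • xs 0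

section Terms

variable {K : Type u} [Field K] {A : Type v} [NonUnitalNonAssocRing A] [Module K A]
  [(algLang K).Structure A] (hC : Compat K A)

include hC

theorem re_zero {α : Type w} (v : α → A) : (zeroT K).realize v = 0 := hC.zero _

theorem re_add {α : Type w} (v : α → A) (s t : (algLang K).Term α) :
    (addT K s t).realize v = s.realize v + t.realize v := hC.add _

theorem re_mul {α : Type w} (v : α → A) (s t : (algLang K).Term α) :
    (mulT K s t).realize v = s.realize v * t.realize v := hC.mul _

theorem re_sum {α : Type w} (v : α → A) (l : List ((algLang K).Term α)) :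
    (sumT K l).realize v = (l.map fun t => t.realize v).sum := by
  induction l with
  | nil => exact re_zero hC v
  | cons t l ih => rw [sumT, re_add hC, ih]; simp

theorem re_sum_ofFn {α : Type w} (v : α → A) {r : ℕ} (f : Fin r → (algLang K).Term α) :
    (sumT K (List.ofFn f)).realize v = ∑ i, (f i).realize v := by
  rw [re_sum hC, List.map_ofFn, List.sum_ofFn]
  rfl

/-- homomorphisms commute with terms -/
theorem re_map (σ : A →ₙₐ[K] A) {α : Type w} (v : α → A) (t : (algLang K).Term α) :
    σ (t.realize v) = t.realize (fun a => σ (v a)) := by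
  induction t with
  | var a => rfl
  | @func l f ts ih =>
    match l, f with
    | _, AlgFn.zero =>
      have h1 : (Language.Term.func (L := algLang K) (AlgFn.zero : AlgFn K 0) ts).realize v = 0 :=
        hC.zero _
      have h2 : (Language.Term.func (L := algLang K) (AlgFn.zero : AlgFn K 0) ts).realize
          (fun a => σ (v a)) = 0 := hC.zero _
      exact (congrArg σ h1).trans ((map_zero σ).trans h2.symm)
    | _, AlgFn.add =>
      have h1 : (Language.Term.func (L := algLang K) (AlgFn.add : AlgFn K 2) ts).realize v =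
        (ts 0).realize v + (ts 1).realize v := hC.add _
      have h2 : (Language.Term.func (L := algLang K) (AlgFn.add : AlgFn K 2) ts).realize
          (fun a => σ (v a)) = (ts 0).realize (fun a => σ (v a)) +
          (ts 1).realize (fun a => σ (v a)) := hC.add _
      refine (congrArg σ h1).trans (Eq.trans ?_ h2.symm)
      rw [map_add, ih 0, ih 1]
    | _, AlgFn.neg =>
      have h1 : (Language.Term.func (L := algLang K) (AlgFn.neg : AlgFn K 1) ts).realize v =
        - (ts 0).realize v := hC.neg _
      have h2 : (Language.Term.func (L := algLang K) (AlgFn.neg : AlgFn K 1) ts).realize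
          (fun a => σ (v a)) = - (ts 0).realize (fun a => σ (v a)) := hC.neg _
      refine (congrArg σ h1).trans (Eq.trans ?_ h2.symm)
      rw [map_neg, ih 0]
    | _, AlgFn.mul =>
      have h1 : (Language.Term.func (L := algLang K) (AlgFn.mul : AlgFn K 2) ts).realize v =
        (ts 0).realize v * (ts 1).realize v := hC.mul _
      have h2 : (Language.Term.func (L := algLang K) (AlgFn.mul : AlgFn K 2) ts).realize
          (fun a => σ (v a)) = (ts 0).realize (fun a => σ (v a)) *
          (ts 1).realize (fun a => σ (v a)) := hC.mul _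
      refine (congrArg σ h1).trans (Eq.trans ?_ h2.symm)
      rw [map_mul, ih 0, ih 1]
    | _, AlgFn.smul c =>
      have h1 : (Language.Term.func (L := algLang K) (AlgFn.smul c : AlgFn K 1) ts).realize v =
        c • (ts 0).realize v := hC.smul c _
      have h2 : (Language.Term.func (L := algLang K) (AlgFn.smul c : AlgFn K 1) ts).realize
          (fun a => σ (v a)) = c • (ts 0).realize (fun a => σ (v a)) := hC.smul c _
      refine (congrArg σ h1).trans (Eq.trans ?_ h2.symm)
      rw [map_smul, ih 0]

/-- every element is the value of a term at finitely many generators -/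
theorem exists_term {I : Type w} {x : I → A} (hx : RelFree K A x) (z : A) :
    ∃ (S : Finset I) (t : (algLang K).Term {i // i ∈ S}),
      t.realize (fun j : {i // i ∈ S} => x j.1) = z := by
  classical
  have hrel : ∀ (S S' : Finset I) (h : S ⊆ S') (t : (algLang K).Term {i // i ∈ S}),
      (t.relabel (fun j => (⟨j.1, h j.2⟩ : {i // i ∈ S'}))).realize
        (fun j : {i // i ∈ S'} => x j.1) = t.realize (fun j : {i // i ∈ S} => x j.1) := by
    intro S S' h t
    rw [Language.Term.realize_relabel]
    rfl
  refine gen_induction hx (fun z => ∃ (S : Finset I) (t : (algLang K).Term {i // i ∈ S}),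
      t.realize (fun j : {i // i ∈ S} => x j.1) = z) ⟨∅, zeroT K, re_zero hC _⟩
    (fun i => ⟨{i}, Language.Term.var ⟨i, Finset.mem_singleton_self i⟩, rfl⟩) ?_ ?_ ?_ z
  · rintro _ _ ⟨S, s, rfl⟩ ⟨T, t, rfl⟩
    refine ⟨S ∪ T, addT K (s.relabel (fun j => ⟨j.1, Finset.subset_union_left j.2⟩))
      (t.relabel (fun j => ⟨j.1, Finset.subset_union_right j.2⟩)), ?_⟩
    rw [re_add hC, hrel S (S ∪ T) Finset.subset_union_left,
      hrel T (S ∪ T) Finset.subset_union_right]
  · rintro c _ ⟨S, s, rfl⟩
    exact ⟨S, Language.Term.func (l := 1) (AlgFn.smul c : AlgFn K 1) ![s], hC.smul c _⟩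
  · rintro _ _ ⟨S, s, rfl⟩ ⟨T, t, rfl⟩
    refine ⟨S ∪ T, mulT K (s.relabel (fun j => ⟨j.1, Finset.subset_union_left j.2⟩))
      (t.relabel (fun j => ⟨j.1, Finset.subset_union_right j.2⟩)), ?_⟩
    rw [re_mul hC, hrel S (S ∪ T) Finset.subset_union_left,
      hrel T (S ∪ T) Finset.subset_union_right]

/-- every tuple is the value of terms at finitely many generators -/
theorem exists_terms {I : Type w} {x : I → A} (hx : RelFree K A x) {m : ℕ} (μ : Fin m → A) :
    ∃ (S : Finset I) (t : Fin m → (algLang K).Term {i // i ∈ S}),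
      ∀ l, (t l).realize (fun j : {i // i ∈ S} => x j.1) = μ l := by
  classical
  choose S t ht using fun l => exists_term hC hx (μ l)
  have hS : ∀ l, S l ⊆ Finset.univ.biUnion S := fun l =>
    Finset.subset_biUnion_of_mem S (Finset.mem_univ l)
  refine ⟨Finset.univ.biUnion S, fun l => (t l).relabel (fun j => ⟨j.1, hS l j.2⟩), ?_⟩
  intro l
  rw [Language.Term.realize_relabel]
  exact ht l

end Terms

/-! ### A formula for the square -/

section Square

/-- All iterated products of `y` with other elements of the pattern `ε` vanish; `true` stands for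
a multiplication from the left and `false` for a multiplication from the right. -/
def Dp {A : Type v} [NonUnitalNonAssocRing A] : List Bool → A → Prop
  | [], y => y = 0
  | (b :: ε), y => ∀ a : A, Dp ε (if b then a * y else y * a)

variable (K : Type u)

/-- the formula which defines `Dp ε` -/
noncomputable def dF : List Bool → (algLang K).Formula (Fin 1)
  | [] => Language.Term.equal (vr K 0) (zeroT K)
  | (b :: ε) => Language.Formula.iAlls (Fin 1)
      (Language.BoundedFormula.subst (dF ε) (fun _ =>
        if b then mulT K (vr K (Sum.inr 0 : Fin 1 ⊕ Fin 1)) (vr K (Sum.inl 0))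
        else mulT K (vr K (Sum.inl 0)) (vr K (Sum.inr 0))))

/-- the formula `dF` for a term -/
noncomputable def dT {α : Type w} (ε : List Bool) (τ : (algLang K).Term α) :
    (algLang K).Formula α := Language.BoundedFormula.subst (dF K ε) (fun _ => τ)

variable {K} [Field K] {A : Type v} [NonUnitalNonAssocRing A] [Module K A]
  [(algLang K).Structure A]

theorem realize_dF (hC : Compat K A) (ε : List Bool) :
    ∀ v : Fin 1 → A, (dF K ε).Realize v ↔ Dp ε (v 0) := by
  induction ε with
  | nil =>
    intro v
    unfold dF Dp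
    rw [Language.Formula.realize_equal, re_zero hC]
    rfl
  | cons b ε ih =>
    intro v
    unfold dF Dp
    rw [Language.Formula.realize_iAlls]
    have h1 : ∀ w : Fin 1 → A, Language.Formula.Realize
        (Language.BoundedFormula.subst (dF K ε) (fun _ =>
        if b then mulT K (vr K (Sum.inr 0 : Fin 1 ⊕ Fin 1)) (vr K (Sum.inl 0))
        else mulT K (vr K (Sum.inl 0)) (vr K (Sum.inr 0)))) (Sum.elim v w) ↔
        Dp ε (if b then w 0 * v 0 else v 0 * w 0) := by
      intro w
      unfold Language.Formula.Realize
      rw [Language.BoundedFormula.realize_subst]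
      have h2 := ih (fun _ => (if b then mulT K (vr K (Sum.inr 0 : Fin 1 ⊕ Fin 1)) (vr K (Sum.inl 0))
        else mulT K (vr K (Sum.inl 0)) (vr K (Sum.inr 0))).realize (Sum.elim v w))
      unfold Language.Formula.Realize at h2
      rw [h2]
      cases b
      · rw [if_neg Bool.false_ne_true, if_neg Bool.false_ne_true, re_mul hC]
        rfl
      · rw [if_pos rfl, if_pos rfl, re_mul hC]
        rfl
    constructor
    · intro h a
      exact (h1 (fun _ => a)).1 (h (fun _ => a))
    · intro h w
      exact (h1 w).2 (h (w 0))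

theorem realize_dT (hC : Compat K A) (ε : List Bool) {α : Type w} (τ : (algLang K).Term α)
    (v : α → A) : (dT K ε τ).Realize v ↔ Dp ε (τ.realize v) := by
  unfold dT Language.Formula.Realize
  rw [Language.BoundedFormula.realize_subst]
  exact realize_dF hC ε (fun _ => τ.realize v)

end Square

section SquareAlg

variable {K : Type u} [Field K] {F : Type v} [NonUnitalNonAssocRing F] [Module K F]
  [IsScalarTower K F F] [SMulCommClass K F F]

theorem Dp_zero (ε : List Bool) : Dp ε (0 : F) := by
  induction ε with
  | nil => exact rfl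
  | cons b ε ih =>
    intro a
    cases b
    · simpa using ih
    · simpa using ih

theorem Dp_add (ε : List Bool) : ∀ y z : F, Dp ε y → Dp ε z → Dp ε (y + z) := by
  induction ε with
  | nil =>
    intro y z hy hz
    have h1 : y = 0 := hy
    have h2 : z = 0 := hz
    show y + z = 0
    rw [h1, h2, add_zero]
  | cons b ε ih =>
    intro y z hy hz a
    have h1 := hy a
    have h2 := hz a
    cases b
    · have h3 := ih _ _ h1 h2
      simpa [add_mul] using h3
    · have h3 := ih _ _ h1 h2
      simpa [mul_add] using h3

theorem Dp_smul (c : K) (ε : List Bool) : ∀ y : F, Dp ε y → Dp ε (c • y) := by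
  induction ε with
  | nil =>
    intro y hy
    have h1 : y = 0 := hy
    show c • y = 0
    rw [h1, smul_zero]
  | cons b ε ih =>
    intro y hy a
    have h1 := ih _ (hy a)
    cases b
    · simpa [smul_mul_assoc] using h1
    · simpa [mul_smul_comm] using h1

theorem Dp_auto (σ : F →ₙₐ[K] F) (hσ : Function.Bijective σ) (ε : List Bool) :
    ∀ y : F, Dp ε (σ y) ↔ Dp ε y := by
  induction ε with
  | nil =>
    intro y
    constructor
    · intro h
      have h1 : σ y = 0 := h
      show y = 0
      apply hσ.1
      rw [h1, map_zero]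
    · intro h
      have h1 : y = 0 := h
      show σ y = 0
      rw [h1, map_zero]
  | cons b ε ih =>
    intro y
    have h0 : ∀ a : F, (if b then σ a * σ y else σ y * σ a) = σ (if b then a * y else y * a) := by
      intro a
      cases b
      · simp
      · simp
    constructor
    · intro h a
      have h1 := h (σ a)
      rw [h0] at h1
      exact (ih _).1 h1
    · intro h a
      obtain ⟨a, rfl⟩ := hσ.2 a
      rw [h0]
      exact (ih _).2 (h a)

theorem Dp_of_pw (ε : List Bool) : ∀ (j : ℕ), 1 ≤ j → ∀ y ∈ pw K F j,
    pw K F (j + ε.length) = ⊥ → Dp ε y := by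
  induction ε with
  | nil =>
    intro j _ y hy h
    rw [List.length_nil, add_zero] at h
    rw [h, Submodule.mem_bot] at hy
    exact hy
  | cons b ε ih =>
    intro j hj y hy h a
    apply ih (j + 1) (by omega)
    · cases b
      · simpa using mul_mem_pw hj le_rfl hy (mem_pw_one a)
      · have h1 := mul_mem_pw le_rfl hj (mem_pw_one a) hy
        rw [add_comm] at h1
        simpa using h1
    · rw [List.length_cons] at h
      rw [← h]
      congr 1
      omega

variable {I : Type w} {x : I → F}

/-- The square is defined by one of the formulas. -/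
theorem exists_pattern (hx : RelFree K F x) {n : ℕ} (hF : pw K F n = ⊥) (hn : 1 ≤ n)
    (hne : ∃ a b : F, a * b ≠ 0) : ∃ ε : List Bool, ∀ z : F, Dp ε z ↔ z ∈ pw K F 2 := by
  have h0 : ∃ k, (∃ ε : List Bool, ε.length = k ∧ ∃ y : F, ¬ Dp ε y) ∧
      ¬ ∃ ε : List Bool, ε.length = k + 1 ∧ ∃ y : F, ¬ Dp ε y := by
    by_contra hcon
    push Not at hcon
    have h1 : ∀ k, ∃ ε : List Bool, ε.length = k ∧ ∃ y : F, ¬ Dp ε y := by
      intro k
      induction k with
      | zero =>
        obtain ⟨a, b, hab⟩ := hne
        exact ⟨[], rfl, a * b, hab⟩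
      | succ k ih =>
        obtain ⟨ε, hε, y, hy⟩ := ih
        exact hcon k ⟨ε, hε, y, hy⟩
    obtain ⟨ε, hε, y, hy⟩ := h1 (n - 1)
    apply hy
    apply Dp_of_pw (K := K) ε 1 le_rfl y (mem_pw_one y)
    rw [hε, show 1 + (n - 1) = n by omega, hF]
  obtain ⟨k, ⟨ε, hε, y, hy⟩, hk⟩ := h0
  push Not at hk
  have hsq : ∀ z ∈ pw K F 2, Dp ε z := by
    let R : Submodule K F :=
      { carrier := {z | Dp ε z}
        add_mem' := fun {a b} ha hb => Dp_add ε a b ha hb
        zero_mem' := Dp_zero ε
        smul_mem' := fun c a ha => Dp_smul c ε a ha }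
    have h1 : pw K F 2 ≤ R := by
      apply sq_le
      intro a b
      have h2 := hk (true :: ε) (by rw [List.length_cons, hε]) b a
      show Dp ε (a * b)
      simpa using h2
    exact fun z hz => h1 hz
  refine ⟨ε, fun z => ⟨fun hz => ?_, hsq z⟩⟩
  by_contra hz2
  have hy2 : y ∉ pw K F 2 := fun h => hy (hsq y h)
  obtain ⟨i₀⟩ : Nonempty I := by
    by_contra hI
    rw [not_nonempty_iff] at hI
    apply hz2
    exact gen_induction hx (fun z => z ∈ pw K F 2) (zero_mem _) (fun i => (hI.false i).elim)
      (fun a b ha hb => add_mem ha hb) (fun c a ha => Submodule.smul_mem _ c ha)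
      (fun a b _ _ => mul_mem_sq a b) z
  have hex : ∀ z : F, z ∉ pw K F 2 → ∃ σ : F →ₙₐ[K] F, Function.Bijective σ ∧ σ (x i₀) = z := by
    intro z hz
    obtain ⟨σ, hσ, h⟩ := exists_auto hx hF hn hne (B := PUnit.{w + 1}) (fun _ => i₀)
      (fun _ _ _ => rfl) (fun _ => z) (by
        rw [linearIndependent_unique_iff]
        exact fun h => hz (cl_eq_zero.1 h))
    exact ⟨σ, hσ, h PUnit.unit⟩
  obtain ⟨σ, hσ, h1⟩ := hex y hy2
  obtain ⟨ρ, hρ, h2⟩ := hex z hz2
  apply hy
  rw [← h1, Dp_auto σ hσ, ← Dp_auto ρ hρ, h2]
  exact hz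

end SquareAlg

section Indep

variable (K : Type u) [Field K] {A : Type v} [NonUnitalNonAssocRing A] [Module K A]
  [(algLang K).Structure A]

/-- the semantic form of the independence condition -/
def IsInd {B : Type w} [Fintype B] (ε : List Bool) (s t : (algLang K).Term (Fin 3))
    (y : B → A) : Prop :=
  (∀ j, ¬ Dp ε (y j)) ∧
  ∀ u w : B → A, (∀ j, s.realize ![u j, y j, w j] = t.realize ![u j, y j, w j]) →
    Dp ε (∑ j, u j) → ∀ j, Dp ε (u j)

/-- the place of the three variables -/
def pl (B : Type w) (j : B) : Fin 3 → B ⊕ (B ⊕ B) :=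
  ![Sum.inr (Sum.inl j), Sum.inl j, Sum.inr (Sum.inr j)]

/-- The first-order formula expressing `IsInd`. -/
noncomputable def indF (B : Type w) [Fintype B] (ε : List Bool) (s t : (algLang K).Term (Fin 3)) :
    (algLang K).Formula B :=
  Language.Formula.iInf (fun j : B => ∼ (dT K ε (vr K j))) ⊓
  Language.Formula.iAlls (B ⊕ B)
    (((Language.Formula.iInf (fun j : B =>
        Language.Term.equal (s.relabel (pl B j)) (t.relabel (pl B j)))) ⊓
      dT K ε (sumT K ((Finset.univ : Finset B).toList.map fun j => vr K (Sum.inr (Sum.inl j))))).imp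
      (Language.Formula.iInf (fun j : B => dT K ε (vr K (Sum.inr (Sum.inl j))))))

variable {K}

theorem re_pl {B : Type w} (j : B) (s : (algLang K).Term (Fin 3)) (y u w : B → A) :
    (s.relabel (pl B j)).realize (Sum.elim y (Sum.elim u w)) = s.realize ![u j, y j, w j] := by
  rw [Language.Term.realize_relabel]
  congr 1
  funext k
  fin_cases k <;> rfl

theorem realize_indF (hC : Compat K A) {B : Type w} [Fintype B] (ε : List Bool)
    (s t : (algLang K).Term (Fin 3)) (y : B → A) :
    (indF K B ε s t).Realize y ↔ IsInd K ε s t y := by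
  unfold indF IsInd
  rw [Language.Formula.realize_inf]
  refine and_congr ?_ ?_
  · rw [Language.Formula.realize_iInf]
    refine forall_congr' fun j => ?_
    rw [Language.Formula.realize_not, realize_dT hC]
    rfl
  · rw [Language.Formula.realize_iAlls]
    have key : ∀ u w : B → A, Language.Formula.Realize
        (((Language.Formula.iInf (fun j : B =>
        Language.Term.equal (s.relabel (pl B j)) (t.relabel (pl B j)))) ⊓
      dT K ε (sumT K ((Finset.univ : Finset B).toList.map fun j => vr K (Sum.inr (Sum.inl j))))).imp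
      (Language.Formula.iInf (fun j : B => dT K ε (vr K (Sum.inr (Sum.inl j))))))
        (Sum.elim y (Sum.elim u w)) ↔
        ((∀ j, s.realize ![u j, y j, w j] = t.realize ![u j, y j, w j]) →
          Dp ε (∑ j, u j) → ∀ j, Dp ε (u j)) := by
      intro u w
      rw [Language.Formula.realize_imp, Language.Formula.realize_inf,
        Language.Formula.realize_iInf, Language.Formula.realize_iInf, realize_dT hC, re_sum hC]
      have e1 : ((Finset.univ : Finset B).toList.map fun j =>
          (vr K (Sum.inr (Sum.inl j)) : (algLang K).Term (B ⊕ (B ⊕ B)))).map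
          (fun t => t.realize (Sum.elim y (Sum.elim u w))) = (Finset.univ : Finset B).toList.map u := by
        rw [List.map_map]
        rfl
      rw [e1, Finset.sum_map_toList]
      rw [and_imp]
      refine imp_congr ?_ (imp_congr Iff.rfl ?_)
      · refine forall_congr' fun j => ?_
        rw [Language.Formula.realize_equal, re_pl, re_pl]
      · refine forall_congr' fun j => ?_
        rw [realize_dT hC]
        rfl
    constructor
    · intro h u w
      exact (key u w).1 (h (Sum.elim u w))
    · intro h uw
      have he : uw = Sum.elim (fun j => uw (Sum.inl j)) (fun j => uw (Sum.inr j)) := by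
        funext k
        rcases k with k | k <;> rfl
      rw [he]
      exact (key _ _).2 (h _ _)

end Indep

/-! ### Orbits -/

section Orbits

variable {K : Type u} [Field K] {F : Type v} [NonUnitalNonAssocRing F] [Module K F]
  [IsScalarTower K F F] [SMulCommClass K F F] [(algLang K).Structure F] {I : Type w} {x : I → F}

/-- Every orbit of tuples is defined by one formula, if proportionality modulo the square is
definable. -/
theorem orbit_of (hC : Compat K F) (hx : RelFree K F x) {n : ℕ} (hF : pw K F n = ⊥) (hn : 1 ≤ n)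
    (hne : ∃ a b : F, a * b ≠ 0) (s t : (algLang K).Term (Fin 3))
    (H1 : ∀ (y : F) (c : K), ∃ w, s.realize ![c • y, y, w] = t.realize ![c • y, y, w])
    (H2 : ∀ i j : I, i ≠ j → ∀ w, s.realize ![x i, x j, w] ≠ t.realize ![x i, x j, w])
    (m : ℕ) (μ : Fin m → F) :
    ∃ φ : (algLang K).Formula (Fin m), ∀ ν : Fin m → F, φ.Realize ν ↔
      ∃ σ : F →ₙₐ[K] F, Function.Bijective σ ∧ ∀ i, σ (μ i) = ν i := by
  classical
  obtain ⟨ε, hε⟩ := exists_pattern hx hF hn hne
  obtain ⟨S, τ, hτ⟩ := exists_terms hC hx μ
  have hmap : ∀ (σ : F →ₙₐ[K] F) (s : (algLang K).Term (Fin 3)) (a b c : F),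
      σ (s.realize ![a, b, c]) = s.realize ![σ a, σ b, σ c] := by
    intro σ s a b c
    rw [re_map hC]
    congr 1
    funext k
    fin_cases k <;> rfl
  -- the formula defines the independent families
  have hind : ∀ y : {i // i ∈ S} → F, IsInd K ε s t y ↔
      LinearIndependent K (fun j => cl K (y j)) := by
    intro y
    constructor
    · intro hy
      rw [Fintype.linearIndependent_iff]
      intro c hc j
      by_contra hcj
      choose w hw using fun j => H1 (y j) (c j)
      have h1 : Dp ε (∑ j, c j • y j) := by
        rw [hε, ← cl_eq_zero, map_sum]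
        simp only [map_smul]
        exact hc
      have h2 := hy.2 (fun j => c j • y j) w hw h1 j
      apply hy.1 j
      rw [hε] at h2 ⊢
      have h3 := Submodule.smul_mem _ (c j)⁻¹ h2
      rwa [smul_smul, inv_mul_cancel₀ hcj, one_smul] at h3
    · intro hy
      have hy0 : ∀ j, y j ∉ pw K F 2 := fun j h => hy.ne_zero j (cl_eq_zero.2 h)
      refine ⟨fun j h => hy0 j ((hε _).1 h), ?_⟩
      intro u w huw hsum
      have hui : ∀ j, ∃ c : K, u j - c • y j ∈ pw K F 2 := by
        intro j
        refine proportional hx hF hn hne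
          (fun a b => ∃ w, s.realize ![a, b, w] = t.realize ![a, b, w]) ?_ ?_ (hy0 j) ⟨w j, huw j⟩
        · rintro σ hσ a b ⟨w, hw⟩
          obtain ⟨w, rfl⟩ := hσ.2 w
          rw [← hmap, ← hmap] at hw
          exact ⟨w, hσ.1 hw⟩
        · rintro i j hij ⟨w, hw⟩
          exact H2 i j hij w hw
      choose c hc using hui
      have hc' : ∀ j, cl K (u j) = c j • cl K (y j) := by
        intro j
        have h1 := cl_eq_zero.2 (hc j)
        rw [map_sub, map_smul, sub_eq_zero] at h1
        exact h1
      rw [hε, ← cl_eq_zero, map_sum] at hsum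
      simp only [hc'] at hsum
      have h2 := Fintype.linearIndependent_iff.1 hy c hsum
      intro j
      rw [hε, ← cl_eq_zero, hc', h2 j, zero_smul]
  let Φ : (algLang K).Formula (Fin m) :=
    Language.Formula.iExs {i // i ∈ S} ((indF K {i // i ∈ S} ε s t).relabel
      (Sum.inr : {i // i ∈ S} → Fin m ⊕ {i // i ∈ S}) ⊓
      Language.Formula.iInf (fun i : Fin m =>
        Language.Term.equal (vr K (Sum.inl i : Fin m ⊕ {i // i ∈ S})) ((τ i).relabel Sum.inr)))
  have hΦ : ∀ z : Fin m → F, Φ.Realize z ↔
      ∃ y : {i // i ∈ S} → F, IsInd K ε s t y ∧ ∀ i, z i = (τ i).realize y := by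
    intro z
    rw [Language.Formula.realize_iExs]
    refine exists_congr fun y => ?_
    rw [Language.Formula.realize_inf, Language.Formula.realize_relabel]
    have h0 : (indF K {i // i ∈ S} ε s t).Realize (Sum.elim z y ∘ Sum.inr) ↔ IsInd K ε s t y :=
      realize_indF hC ε s t y
    rw [h0, Language.Formula.realize_iInf]
    refine and_congr Iff.rfl (forall_congr' fun i => ?_)
    rw [Language.Formula.realize_equal, Language.Term.realize_relabel]
    rfl
  refine ⟨Φ, fun ν => ?_⟩
  rw [hΦ]
  constructor
  · rintro ⟨y, hy, hy'⟩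
    obtain ⟨σ, hσ, hσ'⟩ := exists_auto hx hF hn hne (fun j : {i // i ∈ S} => (j : I))
      Subtype.val_injective y ((hind y).1 hy)
    refine ⟨σ, hσ, ?_⟩
    intro i
    rw [← hτ i, hy' i, re_map hC]
    congr 1
    funext j
    exact hσ' j
  · rintro ⟨σ, hσ, hσ'⟩
    refine ⟨fun j => σ (x j), ?_, ?_⟩
    · rw [hind]
      have h1 : LinearIndependent K (fun j : {i // i ∈ S} => cl K (x j)) :=
        (gen_indep hx hF hn hne).comp _ Subtype.val_injective
      -- the automorphism acts on the quotient by a linear automorphism
      rw [Fintype.linearIndependent_iff] at h1 ⊢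
      intro c hc
      apply h1 c
      have h2 : (∑ j, c j • σ (x j)) ∈ pw K F 2 := by
        rw [← cl_eq_zero, map_sum]
        simp only [map_smul]
        exact hc
      have h3 : σ (∑ j, c j • x j) ∈ pw K F 2 := by
        rw [map_sum]
        simp only [map_smul]
        exact h2
      rw [← hε, Dp_auto σ hσ, hε, ← cl_eq_zero, map_sum] at h3
      simp only [map_smul] at h3
      exact h3
    · intro i
      rw [← hσ' i, ← hτ i, re_map hC]

/-- Every orbit of tuples in a relatively free nilpotent algebra with nonzero multiplication is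
defined by one formula. -/
theorem orbit_definable (hC : Compat K F) (hx : RelFree K F x) (hN : Nilp K F)
    (hne : ∃ a b : F, a * b ≠ 0) (m : ℕ) (μ : Fin m → F) :
    ∃ φ : (algLang K).Formula (Fin m), ∀ ν : Fin m → F, φ.Realize ν ↔
      ∃ σ : F →ₙₐ[K] F, Function.Bijective σ ∧ ∀ i, σ (μ i) = ν i := by
  classical
  obtain ⟨n, hn, hF⟩ := hN
  have hpair : ∀ i j : I, i ≠ j → ∀ a b : F, ∃ f : F →ₙₐ[K] F, f (x i) = a ∧ f (x j) = b := by
    intro i j hij a b
    obtain ⟨f, hf⟩ := hx.2 (fun k => if k = i then a else b)
    exact ⟨f, by rw [hf, if_pos rfl], by rw [hf, if_neg hij.symm]⟩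
  by_cases h1 : ∀ a b : F, a * b = b * a
  · by_cases h2 : ∀ a : F, a * a = 0
    · -- all squares vanish
      refine orbit_of hC hx hF hn hne (mulT K (vr K 0) (vr K 1)) (zeroT K) ?_ ?_ m μ
      · intro y c
        refine ⟨0, ?_⟩
        rw [re_mul hC, re_zero hC]
        show (c • y) * y = 0
        rw [smul_mul_assoc, h2, smul_zero]
      · intro i j hij w hw
        rw [re_mul hC, re_zero hC] at hw
        have hw' : x i * x j = 0 := hw
        obtain ⟨a, b, hab⟩ := hne
        obtain ⟨f, hfi, hfj⟩ := hpair i j hij a b
        apply hab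
        rw [← hfi, ← hfj, ← map_mul, hw', map_zero]
    · -- commutative, some square does not vanish
      refine orbit_of hC hx hF hn hne (mulT K (vr K 0) (vr K 0)) (mulT K (vr K 1) (vr K 2))
        ?_ ?_ m μ
      · intro y c
        refine ⟨(c * c) • y, ?_⟩
        rw [re_mul hC, re_mul hC]
        show (c • y) * (c • y) = y * ((c * c) • y)
        rw [smul_mul_assoc, mul_smul_comm, mul_smul_comm, smul_smul]
      · intro i j hij w hw
        rw [re_mul hC, re_mul hC] at hw
        have hw' : x i * x i = x j * w := hw
        apply h2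
        intro a
        obtain ⟨f, hfi, hfj⟩ := hpair i j hij a 0
        rw [← hfi, ← map_mul, hw', map_mul, hfj, zero_mul]
  · -- not commutative
    refine orbit_of hC hx hF hn hne (mulT K (vr K 0) (vr K 1)) (mulT K (vr K 1) (vr K 0))
      ?_ ?_ m μ
    · intro y c
      refine ⟨0, ?_⟩
      rw [re_mul hC, re_mul hC]
      show (c • y) * y = y * (c • y)
      rw [smul_mul_assoc, mul_smul_comm]
    · intro i j hij w hw
      rw [re_mul hC, re_mul hC] at hw
      have hw' : x i * x j = x j * x i := hw
      apply h1
      intro a b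
      obtain ⟨f, hfi, hfj⟩ := hpair i j hij a b
      rw [← hfi, ← hfj, ← map_mul, hw', map_mul]

/-- the case of zero multiplication -/
theorem homogeneous_of_zero (hC : Compat K F) (h0 : ∀ a b : F, a * b = 0)
    (m : ℕ) (μ ν : Fin m → F)
    (hμν : ∀ φ : (algLang K).Formula (Fin m), φ.Realize μ ↔ φ.Realize ν) :
    ∃ σ : F →ₙₐ[K] F, Function.Bijective σ ∧ ∀ i, σ (μ i) = ν i := by
  have hrel : ∀ c : Fin m → K, ∑ i, c i • μ i = 0 ↔ ∑ i, c i • ν i = 0 := by
    intro c
    have hv : ∀ (v : Fin m → F) (i : Fin m), (Language.Term.func (l := 1)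
        (AlgFn.smul (c i) : AlgFn K 1) ![vr K i] : (algLang K).Term (Fin m)).realize v =
        c i • v i := fun v i => hC.smul (c i) _
    have := hμν (Language.Term.equal (sumT K (List.ofFn fun i : Fin m =>
      (Language.Term.func (l := 1) (AlgFn.smul (c i) : AlgFn K 1) ![vr K i] :
        (algLang K).Term (Fin m)))) (zeroT K))
    rw [Language.Formula.realize_equal, Language.Formula.realize_equal, re_sum_ofFn hC,
      re_sum_ofFn hC, re_zero hC, re_zero hC] at this
    simp only [hv] at this
    exact this
  obtain ⟨E, hE⟩ := lin_ext (K := K) μ ν (fun c => by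
    rw [Fintype.linearCombination_apply, Fintype.linearCombination_apply]
    exact hrel c)
  let σ : F →ₙₐ[K] F :=
    { toFun := E
      map_smul' := fun c a => by simp
      map_zero' := by simp
      map_add' := fun a b => by simp
      map_mul' := fun a b => by rw [h0, h0]; simp }
  exact ⟨σ, E.bijective, hE⟩

/-- Tuples of the same type in a relatively free nilpotent algebra are conjugate under an
automorphism. -/
theorem homogeneous (hC : Compat K F) (hx : RelFree K F x) (hN : Nilp K F) (m : ℕ)
    (μ ν : Fin m → F) (hμν : ∀ φ : (algLang K).Formula (Fin m), φ.Realize μ ↔ φ.Realize ν) :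
    ∃ σ : F →ₙₐ[K] F, Function.Bijective σ ∧ ∀ i, σ (μ i) = ν i := by
  by_cases hne : ∃ a b : F, a * b ≠ 0
  · obtain ⟨φ, hφ⟩ := orbit_definable hC hx hN hne m μ
    have h1 : φ.Realize μ := (hφ μ).2 ⟨NonUnitalAlgHom.id K F, Function.bijective_id, fun i => rfl⟩
    exact (hφ ν).1 ((hμν φ).1 h1)
  · push Not at hne
    exact homogeneous_of_zero hC hne m μ ν hμν

end Orbits

end Pool.Agent.Y624.RF
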